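import Pool.Agent.H83.AB.Good

/-!
# AB Good2: the density of the good classes depends only on the 2-part of the degree

`K` in `L = ℚ(ζ_f)`, `3 ∣ f`, no primitive cube root of unity in `K`, `[K:ℚ] = 2 ^ m * t` with `t` odd.  The good classes
have density at least `1 / 2 ^ m`, and at least `1 - 1 / 2 ^ m` if the Sylow 2-subgroup of `Gal(K/ℚ)` is cyclic.
-/

set_option autoImplicit false

namespace Pool.Agent.H42.AB

open Finset Pool.Agent.H83.AB

section grp

variable {G Γ : Type*} [CommGroup G] [Group Γ]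

/-- `g ↦ π g ^ t` -/
def powHom (π : G →* Γ) (t : ℕ) : G →* Γ := π.comp (powMonoidHom t)

theorem powHom_apply (π : G →* Γ) (t : ℕ) (g : G) : powHom π t g = π g ^ t := by
  show π (g ^ t) = π g ^ t
  exact map_pow π g t

theorem good_of_pow (π : G →* Γ) (χ : G →* ℤˣ) (c : G) (hc2 : c ^ 2 = 1) {t : ℕ} (ht : Odd t) (g : G)
    (hg : IsGood (powHom π t).rangeRestrict χ c g) : IsGood π χ c g := by
  obtain ⟨h, h1, h2, k, hk⟩ := hg
  refine ⟨h ^ t, ?_, ?_, k * t, ?_⟩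
  · have h3 := congrArg Subtype.val h1
    rw [MonoidHom.coe_rangeRestrict, powHom_apply] at h3
    rw [map_pow]
    exact h3
  · rw [map_pow, h2, ht.neg_one_pow]
  · rcases hk with rfl | rfl
    · left
      rw [pow_mul]
    · right
      obtain ⟨s, rfl⟩ := ht
      rw [mul_pow, ← pow_mul, pow_succ c, pow_mul c, hc2, one_pow, one_mul]

variable [Fintype Γ]

/-- the range is a 2-group -/
theorem isPGroup_range (π : G →* Γ) {m t : ℕ} (hcard : Fintype.card Γ = 2 ^ m * t) :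
    IsPGroup 2 (powHom π t).range := by
  rintro ⟨x, g, rfl⟩
  refine ⟨m, ?_⟩
  apply Subtype.ext
  show (powHom π t g) ^ 2 ^ m = 1
  rw [powHom_apply, ← pow_mul, mul_comm t, ← hcard, pow_card_eq_one]

theorem card_range_le (π : G →* Γ) {m t : ℕ} (ht : Odd t) (hcard : Fintype.card Γ = 2 ^ m * t) :
    Nat.card (powHom π t).range ≤ 2 ^ m := by
  have : Fact (Nat.Prime 2) := ⟨Nat.prime_two⟩
  obtain ⟨j, hj⟩ := (IsPGroup.iff_card).1 (isPGroup_range π hcard)
  have h1 : Nat.card (powHom π t).range ∣ Nat.card Γ := Subgroup.card_subgroup_dvd_card _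
  rw [hj, Nat.card_eq_fintype_card, hcard] at h1
  have h2 : (2 ^ j).Coprime t := Nat.Coprime.pow_left j (Nat.coprime_two_left.2 ht)
  rw [hj]
  exact Nat.le_of_dvd (by positivity) (h2.dvd_of_dvd_mul_right h1)

theorem dvd_card_range (π : G →* Γ) (hπ : Function.Surjective π) {m t : ℕ} (ht : Odd t)
    (hcard : Fintype.card Γ = 2 ^ m * t) : 2 ^ m ∣ Nat.card (powHom π t).range := by
  have hcomm : ∀ x y : Γ, x * y = y * x := by
    intro x y
    obtain ⟨a, rfl⟩ := hπ x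
    obtain ⟨b, rfl⟩ := hπ y
    rw [← map_mul, mul_comm, map_mul]
  let ψ : Γ →* Γ :=
    { toFun := fun x => x ^ t
      map_one' := one_pow t
      map_mul' := fun x y => Commute.mul_pow (hcomm x y) t }
  have hr : ψ.range = (powHom π t).range := by
    ext x
    constructor
    · rintro ⟨y, rfl⟩
      obtain ⟨g, rfl⟩ := hπ y
      exact ⟨g, powHom_apply π t g⟩
    · rintro ⟨g, rfl⟩
      exact ⟨π g, (powHom_apply π t g).symm⟩
  have h1 := ψ.ker.card_mul_index
  rw [Subgroup.index_ker, hr, Nat.card_eq_fintype_card (α := Γ), hcard] at h1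
  have h2 : ¬ 2 ∣ Nat.card ψ.ker := by
    intro h
    have : Fact (Nat.Prime 2) := ⟨Nat.prime_two⟩
    obtain ⟨x, hx⟩ := exists_prime_orderOf_dvd_card' (G := ψ.ker) 2 h
    have h3 : (x : Γ) ^ t = 1 := x.2
    have h4 : orderOf (x : Γ) ∣ t := orderOf_dvd_of_pow_eq_one h3
    rw [Subgroup.orderOf_coe, hx] at h4
    exact (Nat.not_even_iff_odd.2 ht) ((Nat.even_iff).2 (Nat.mod_eq_zero_of_dvd h4))
  have h3 : (2 ^ m).Coprime (Nat.card ψ.ker) := ((Nat.Prime.coprime_iff_not_dvd Nat.prime_two).2 h2).pow_left m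
  exact h3.dvd_of_dvd_mul_left (h1 ▸ Dvd.intro _ rfl)

open scoped Classical in
theorem good_ge2 [Fintype G] (π : G →* Γ) (χ : G →* ℤˣ) (c h₁ : G)
    (hc2 : c ^ 2 = 1) (hχc : χ c = -1) (hh₁ : π h₁ = 1) (hχ₁ : χ h₁ = -1) {m t : ℕ} (ht : Odd t)
    (hcard : Fintype.card Γ = 2 ^ m * t) :
    Fintype.card G ≤ (univ.filter fun g : G => IsGood π χ c g).card * 2 ^ m := by
  have h1 : (powHom π t).rangeRestrict h₁ = 1 := by
    apply Subtype.ext
    rw [MonoidHom.coe_rangeRestrict, powHom_apply, hh₁, one_pow]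
    rfl
  have h2 := good_ge (powHom π t).rangeRestrict (powHom π t).rangeRestrict_surjective χ c h₁ hc2 hχc h1 hχ₁
  refine h2.trans (Nat.mul_le_mul (card_le_card fun g hg => ?_) ?_)
  · rw [mem_filter] at hg ⊢
    exact ⟨hg.1, good_of_pow π χ c hc2 ht g hg.2⟩
  · rw [← Nat.card_eq_fintype_card]
    exact card_range_le π ht hcard

open scoped Classical in
theorem bad_le2 [Fintype G] (π : G →* Γ) (hπ : Function.Surjective π) (χ : G →* ℤˣ) (c h₁ : G)
    (hc2 : c ^ 2 = 1) (hχc : χ c = -1) (hh₁ : π h₁ = 1) (hχ₁ : χ h₁ = -1) {m t : ℕ} (ht : Odd t)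
    (hcard : Fintype.card Γ = 2 ^ m * t) (hcyc : ∀ P : Sylow 2 Γ, IsCyclic P) :
    2 ^ m * (univ.filter fun g : G => ¬ IsGood π χ c g).card ≤ Fintype.card G := by
  have h1 : (powHom π t).rangeRestrict h₁ = 1 := by
    apply Subtype.ext
    rw [MonoidHom.coe_rangeRestrict, powHom_apply, hh₁, one_pow]
    rfl
  have : Fact (Nat.Prime 2) := ⟨Nat.prime_two⟩
  obtain ⟨P, hP⟩ := (isPGroup_range π hcard).exists_le_sylow
  have hPc := hcyc P
  have hRc : IsCyclic (powHom π t).range :=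
    isCyclic_of_injective (Subgroup.inclusion hP) (Subgroup.inclusion_injective hP)
  have h2 := bad_le (powHom π t).rangeRestrict (powHom π t).rangeRestrict_surjective χ c h₁ hc2 hχc h1 hχ₁ m
    (by rw [← Nat.card_eq_fintype_card]; exact dvd_card_range π hπ ht hcard)
  refine (Nat.mul_le_mul_left _ (card_le_card fun g hg => ?_)).trans h2
  rw [mem_filter] at hg ⊢
  exact ⟨hg.1, fun h => hg.2 (good_of_pow π χ c hc2 ht g h)⟩

omit [Fintype Γ] in
/-- cyclic Sylow subgroups and isomorphisms -/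
theorem cyc_of_equiv {Γ' : Type*} [Group Γ'] (e : Γ ≃* Γ') (h : ∀ P : Sylow 2 Γ', IsCyclic P) (P : Sylow 2 Γ) :
    IsCyclic P := by
  have h1 : IsPGroup 2 (P.1.map (e : Γ →* Γ')) := P.2.map _
  obtain ⟨Q, hQ⟩ := h1.exists_le_sylow
  have hQc := h Q
  exact isCyclic_of_injective ((Subgroup.inclusion hQ).comp (e.subgroupMap P.1 : P.1 →* P.1.map (e : Γ →* Γ')))
    ((Subgroup.inclusion_injective hQ).comp (e.subgroupMap P.1).injective)

end grp

universe u

variable (f : ℕ) [NeZero f] (L : Type u) [Field L] [NumberField L]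
    [IsCyclotomicExtension {f} ℚ L] (K : Type*) [Field K] [NumberField K] (ι : K →+* L)

/-- a surjection onto a group isomorphic to `Gal(K/ℚ)` with `[K:ℚ]` elements whose kernel consists of the classes
which fix `K` -/
theorem exists_quot2 :
    ∃ (Γ : Type u) (_ : Group Γ) (_ : Fintype Γ) (π : (ZMod f)ˣ →* Γ), Function.Surjective π ∧
      Fintype.card Γ = Module.finrank ℚ K ∧ Nonempty (Γ ≃* (K ≃ₐ[ℚ] K)) ∧
      ∀ g, π g = 1 ↔ ∀ x : K, (IsCyclotomicExtension.Rat.galEquivZMod f L).symm g (ι x) = ι x := by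
  classical
  have hab : IsAbelianGalois ℚ L := IsCyclotomicExtension.isAbelianGalois {f} ℚ L
  set φ : K →ₐ[ℚ] L := ι.toRatAlgHom with hφ
  set M : IntermediateField ℚ L := φ.fieldRange with hM
  have habM : IsAbelianGalois ℚ M := IsAbelianGalois.of_algHom M.val
  have eKM : K ≃ₐ[ℚ] M := AlgEquiv.ofInjectiveField φ
  refine ⟨Gal(M/ℚ), inferInstance, inferInstance,
    (AlgEquiv.restrictNormalHom M).comp
      (IsCyclotomicExtension.Rat.galEquivZMod f L).symm.toMonoidHom, ?_, ?_, ?_, ?_⟩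
  · intro y
    obtain ⟨σ, hσ⟩ := AlgEquiv.restrictNormalHom_surjective (F := ℚ) (K₁ := M) L y
    refine ⟨IsCyclotomicExtension.Rat.galEquivZMod f L σ, ?_⟩
    rw [MonoidHom.comp_apply]
    show AlgEquiv.restrictNormalHom M ((IsCyclotomicExtension.Rat.galEquivZMod f L).symm
      (IsCyclotomicExtension.Rat.galEquivZMod f L σ)) = y
    rw [MulEquiv.symm_apply_apply, hσ]
  · rw [← Nat.card_eq_fintype_card, IsGalois.card_aut_eq_finrank]
    exact eKM.toLinearEquiv.finrank_eq.symm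
  · exact ⟨(AlgEquiv.autCongr eKM).symm⟩
  · intro g
    have h1 : ∀ σ : Gal(L/ℚ), AlgEquiv.restrictNormalHom M σ = 1 ↔ σ ∈ M.fixingSubgroup := by
      intro σ
      rw [← IntermediateField.restrictNormalHom_ker, MonoidHom.mem_ker]
      exact Iff.rfl
    show AlgEquiv.restrictNormalHom M ((IsCyclotomicExtension.Rat.galEquivZMod f L).symm g) = 1 ↔ _
    rw [h1, IntermediateField.mem_fixingSubgroup_iff]
    constructor
    · intro h x
      exact h (ι x) ⟨x, rfl⟩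
    · rintro h _ ⟨x, rfl⟩
      exact h x

/-- THE GOOD CLASSES: only the 2-part of the degree matters. -/
theorem good_classes2 (h3 : 3 ∣ f) (hω : ∀ x : K, x ^ 2 + x + 1 ≠ 0) {m t : ℕ} (ht : Odd t)
    (hd : Module.finrank ℚ K = 2 ^ m * t) :
    ∃ A : Finset ℕ, (∀ a ∈ A, a < f ∧ a.Coprime f) ∧
      1 / 2 ^ m ≤ (A.card : ℝ) / (f.totient : ℝ) ∧
      ((∀ P : Sylow 2 (K ≃ₐ[ℚ] K), IsCyclic P) →
        1 - 1 / 2 ^ m ≤ (A.card : ℝ) / (f.totient : ℝ)) ∧
      ∀ a ∈ A, ∃ h : (ZMod f)ˣ, (h : ZMod f).val % 3 = 2 ∧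
        (∀ x : K, (IsCyclotomicExtension.Rat.galEquivZMod f L).symm h (ι x) = ι x) ∧
        ∃ k : ℕ, (h : ZMod f) = (a : ZMod f) ^ k ∨ (h : ZMod f) = -(a : ZMod f) ^ k := by
  classical
  obtain ⟨Γ, _, _, π, hπ, hcard, ⟨e⟩, hker⟩ := exists_quot2 f L K ι
  rw [hd] at hcard
  obtain ⟨h₁, hh₁, hfix₁⟩ := exists_two f L K ι h3 hω
  set χ := chi3 f h3 with hχ
  have hχc : χ (-1) = -1 := chi3_neg_one f h3
  have hc2 : (-1 : (ZMod f)ˣ) ^ 2 = 1 := by rw [neg_one_sq]
  have hπ₁ : π h₁ = 1 := (hker h₁).2 hfix₁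
  have hχ₁ : χ h₁ = -1 := (chi3_eq f h3 h₁).2 hh₁
  set S : Finset (ZMod f)ˣ := univ.filter fun g => IsGood π χ (-1) g with hS
  have hGcard : Fintype.card (ZMod f)ˣ = f.totient := ZMod.card_units_eq_totient f
  have htot : (0 : ℝ) < (f.totient : ℝ) := by
    exact_mod_cast Nat.totient_pos.2 (Nat.pos_of_ne_zero (NeZero.ne f))
  have h10 : (0 : ℝ) < 2 ^ m := by positivity
  obtain ⟨h4, h5⟩ := card_image_val f S
  refine ⟨S.image fun g : (ZMod f)ˣ => (g : ZMod f).val, h5, ?_, ?_, ?_⟩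
  · rw [h4]
    have h6 := good_ge2 π χ (-1) h₁ hc2 hχc hπ₁ hχ₁ ht hcard
    rw [hGcard, ← hS] at h6
    rw [div_le_div_iff₀ h10 htot, one_mul]
    exact_mod_cast h6
  · intro hc
    rw [h4]
    have h6 := bad_le2 π hπ χ (-1) h₁ hc2 hχc hπ₁ hχ₁ ht hcard (cyc_of_equiv e hc)
    have h7 : S.card + (univ.filter fun g : (ZMod f)ˣ => ¬ IsGood π χ (-1) g).card = f.totient := by
      rw [hS, card_filter_add_card_filter_not, card_univ, hGcard]
    rw [hGcard] at h6
    set B := (univ.filter fun g : (ZMod f)ˣ => ¬ IsGood π χ (-1) g).card with hB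
    have h8 : (S.card : ℝ) + (B : ℝ) = (f.totient : ℝ) := by exact_mod_cast h7
    have h9 : (2 : ℝ) ^ m * (B : ℝ) ≤ (f.totient : ℝ) := by exact_mod_cast h6
    rw [le_div_iff₀ htot, sub_mul, one_mul, ← h8]
    have h11 : (B : ℝ) ≤ 1 / 2 ^ m * ((S.card : ℝ) + (B : ℝ)) := by
      rw [h8, div_mul_eq_mul_div, one_mul, le_div_iff₀ h10, mul_comm]
      exact h9
    linarith
  · intro a ha
    obtain ⟨g, hg, rfl⟩ := mem_image.1 ha
    rw [hS, mem_filter] at hg
    obtain ⟨-, h, hh1, hh2, k, hk⟩ := hg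
    refine ⟨h, (chi3_eq f h3 h).1 hh2, (hker h).1 hh1, k, ?_⟩
    rw [ZMod.natCast_zmod_val]
    rcases hk with hk | hk
    · left; rw [hk, Units.val_pow_eq_pow_val]
    · right; rw [hk]; simp

end Pool.Agent.H42.AB
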